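import Mathlib

namespace Pool.Agent.Results.MP_c566a2_co.Value

/-- p-tuple walk-nonrepetitive q-colouring -/
def IsWN {V : Type} (G : SimpleGraph V) (p q : ℕ) (c : V → Finset (Fin q)) : Prop :=
  (∀ v, (c v).card = p) ∧
  ∀ (l : ℕ) (w : ℕ → V) (a : ℕ → Fin q), 1 ≤ l → (∀ i, i + 1 < 2 * l → G.Adj (w i) (w (i + 1))) →
    (∀ i < 2 * l, a i ∈ c (w i)) → (∀ i < l, a i = a (l + i)) → ∀ i < l, w i = w (l + i)

/-- the set of ratios q/p -/
def ratios {V : Type} (G : SimpleGraph V) : Set ℝ :=
  {r | ∃ (p q : ℕ) (c : V → Finset (Fin q)), 1 ≤ p ∧ p < q ∧ IsWN G p q c ∧ r = (q : ℝ) / p}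

def t : ℕ → Bool := fun n => Nat.bodd (Nat.digits 2 n).sum

lemma t_rec (n : ℕ) : t n = xor (Nat.bodd n) (t (n / 2)) := by
  rcases Nat.eq_zero_or_pos n with rfl | h
  · simp [t]
  · unfold t
    rw [Nat.digits_def' (by norm_num) h, List.sum_cons, Nat.bodd_add, Nat.mod_two_of_bodd]
    cases Nat.bodd n <;> simp

lemma t_even (n : ℕ) (h : n % 2 = 0) : t (n + 1) = !t n := by
  obtain ⟨m, rfl⟩ : ∃ m, n = 2 * m := ⟨n / 2, by omega⟩
  rw [t_rec (2 * m + 1), t_rec (2 * m), show (2 * m + 1) / 2 = m by omega,
    show 2 * m / 2 = m by omega]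
  simp

lemma overlap (p : ℕ) : 1 ≤ p → ∀ i, ¬ ∀ j ≤ p, t (i + j) = t (i + j + p) := by
  induction p using Nat.strong_induction_on with
  | _ p ih =>
    intro hp i h
    rcases Nat.even_or_odd' p with ⟨q, rfl | rfl⟩
    · refine ih q (by omega) (by omega) (i / 2) fun j hj => ?_
      have := h (2 * j) (by omega)
      rw [t_rec (i + 2 * j), t_rec (i + 2 * j + 2 * q), show (i + 2 * j) / 2 = i / 2 + j by omega,
        show (i + 2 * j + 2 * q) / 2 = i / 2 + j + q by omega] at this
      simpa using this
    · have e : ∀ j < 2 * q + 1, t (i + j + 1) = !t (i + j) := by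
        intro j hj
        by_cases k : (i + j) % 2 = 0
        · exact t_even _ k
        · have := t_even (i + j + (2 * q + 1)) (by omega)
          rw [← h j hj.le, show i + j + (2 * q + 1) + 1 = i + (j + 1) + (2 * q + 1) by ring,
            ← h (j + 1) hj] at this
          exact this
      have e2 : ∀ k ≤ q, t (i + 2 * k) = t i := by
        intro k
        induction k with
        | zero => simp
        | succ k ik =>
          intro hk
          have h1 := e (2 * k) (by omega)
          have h2 := e (2 * k + 1) (by omega)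
          rw [show i + 2 * (k + 1) = i + (2 * k + 1) + 1 by ring, h2,
            show i + (2 * k + 1) = i + 2 * k + 1 by ring, h1, ik (by omega)]
          simp
      have h1 := e (2 * q) (by omega)
      have h2 := h 0 (by omega)
      rw [e2 q le_rfl] at h1
      rw [show i + 0 + (2 * q + 1) = i + 2 * q + 1 by ring, h1] at h2
      simp at h2

def d (n : ℕ) : ℕ := (t (n + 1)).toNat + 1 - (t n).toNat

lemma d_lt (n : ℕ) : d n < 3 := by
  unfold d; cases t (n + 1) <;> cases t n <;> simp

lemma d_sq (p : ℕ) (hp : 1 ≤ p) (i : ℕ) : ¬ ∀ j < p, d (i + j) = d (i + j + p) := by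
  intro h
  have k : ∀ j ≤ p, (t (i + j)).toNat + (t (i + p)).toNat = (t (i + j + p)).toNat + (t i).toNat := by
    intro j
    induction j with
    | zero => intro _; simp [add_comm]
    | succ j ij =>
      intro hj
      have h1 := ij (by omega)
      have h2 := h j (by omega)
      unfold d at h2
      rw [show i + (j + 1) = i + j + 1 by ring, show i + j + 1 + p = i + j + p + 1 by ring]
      have := Bool.toNat_le (t (i + j))
      have := Bool.toNat_le (t (i + j + p))
      omega
  have k0 : t (i + p) = t i := by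
    have := k p le_rfl
    revert this
    cases t (i + p) <;> cases t (i + p + p) <;> cases t i <;> simp
  refine overlap p hp i fun j hj => ?_
  have := k j hj
  rw [k0] at this
  revert this
  cases t (i + j) <;> cases t (i + j + p) <;> simp

def col (n : ℕ) : ℕ := if n % 3 = 2 then 3 else d (2 * (n / 3) + n % 3)

lemma col_lt (n : ℕ) : col n < 4 := by
  unfold col
  have := d_lt (2 * (n / 3) + n % 3)
  split_ifs <;> omega

lemma col_eq {m n : ℕ} (h : col m = col n) : (m % 3 = 2 ↔ n % 3 = 2) ∧
    (m % 3 ≠ 2 → d (2 * (m / 3) + m % 3) = d (2 * (n / 3) + n % 3)) := by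
  unfold col at h
  have := d_lt (2 * (n / 3) + n % 3)
  have := d_lt (2 * (m / 3) + m % 3)
  split_ifs at h <;> omega

lemma d_ne (n : ℕ) : d n ≠ d (n + 1) := fun h =>
  d_sq 1 le_rfl n fun j hj => by obtain rfl : j = 0 := by omega
                                 exact h

lemma col1 (n : ℕ) : col n ≠ col (n + 1) := by
  intro h
  obtain ⟨h1, h2⟩ := col_eq h
  have := h2 (by omega)
  rw [show 2 * ((n + 1) / 3) + (n + 1) % 3 = 2 * (n / 3) + n % 3 + 1 by omega] at this
  exact d_ne _ this

lemma col2 (n : ℕ) : col n ≠ col (n + 2) := by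
  intro h
  obtain ⟨h1, h2⟩ := col_eq h
  have := h2 (by omega)
  rw [show 2 * ((n + 2) / 3) + (n + 2) % 3 = 2 * (n / 3) + n % 3 + 1 by omega] at this
  exact d_ne _ this

lemma col_sq (p : ℕ) (hp : 1 ≤ p) (i : ℕ) : ¬ ∀ j < p, col (i + j) = col (i + j + p) := by
  intro h
  by_cases h3 : p < 3
  · have := h 0 hp
    obtain rfl | rfl : p = 1 ∨ p = 2 := by omega
    · exact col1 _ this
    · exact col2 _ this
  · have a0 := (col_eq (h 0 (by omega))).1
    have a1 := (col_eq (h 1 (by omega))).1
    have a2 := (col_eq (h 2 (by omega))).1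
    obtain ⟨m, rfl⟩ : ∃ m, p = 3 * m := ⟨p / 3, by omega⟩
    refine d_sq (2 * m) (by omega) (2 * (i / 3) + i % 3) fun k hk => ?_
    obtain ⟨s, hs⟩ : ∃ s, s = 2 * (i / 3) + i % 3 + k := ⟨_, rfl⟩
    have := (col_eq (h (3 * (s / 2) + s % 2 - i) (by omega))).2 (by omega)
    convert this using 2 <;> omega

lemma walk_lemma (f : ℕ → ℕ) (N : ℕ) (f1 : ∀ n, f n ≠ f (n + 1)) (f2 : ∀ n, f n ≠ f (n + 2))
    (fs : ∀ p, 1 ≤ p → ∀ i, i + 2 * p ≤ N → ¬ ∀ j < p, f (i + j) = f (i + j + p))
    (l : ℕ) (w : ℕ → ℕ) (hl : 1 ≤ l) (hN : ∀ i, w i < N)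
    (hw : ∀ i, i + 1 < 2 * l → w i + 1 = w (i + 1) ∨ w (i + 1) + 1 = w i)
    (hc : ∀ i < l, f (w i) = f (w (l + i))) : ∀ i < l, w i = w (l + i) := by
  have two : ∀ i, i + 2 < 2 * l → (w i = w (i + 2) ↔ f (w i) = f (w (i + 2))) := by
    intro i hi
    refine ⟨fun e => by rw [e], fun e => ?_⟩
    by_contra hn
    have h1 := hw i (by omega)
    have h2 := hw (i + 1) (by omega)
    rw [show i + 1 + 1 = i + 2 by ring] at h2
    rcases (by omega : w (i + 2) = w i + 2 ∨ w i = w (i + 2) + 2) with k | k
    · rw [k] at e; exact f2 _ e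
    · rw [k] at e; exact f2 _ e.symm
  have ne12 : ∀ i < l, w i + 1 ≠ w (l + i) ∧ w i + 2 ≠ w (l + i) ∧ w (l + i) + 1 ≠ w i ∧
      w (l + i) + 2 ≠ w i := by
    intro i hi
    have := hc i hi
    refine ⟨fun e => ?_, fun e => ?_, fun e => ?_, fun e => ?_⟩ <;> rw [← e] at this
    · exact f1 _ this
    · exact f2 _ this
    · exact f1 _ this.symm
    · exact f2 _ this.symm
  have tw : ∀ i, i + 2 < l → (w i = w (i + 2) ↔ w (l + i) = w (l + i + 2)) := by
    intro i hi
    rw [two i (by omega), two (l + i) (by omega), hc i (by omega), hc (i + 2) hi, add_assoc]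
  have last := hw (l - 1) (by omega)
  rw [show l - 1 + 1 = l by omega] at last
  by_cases l1 : l = 1
  · subst l1
    have := ne12 0 (by omega)
    simp only [Nat.sub_self, add_zero] at last this
    omega
  have s0 := hw 0 (by omega)
  have s1 := hw l (by omega)
  simp only [zero_add] at s0
  by_cases hs : w 1 + w l = w 0 + w (l + 1)
  · have par : ∀ i, i + 1 < l → w i + w l = w 0 + w (l + i) ∧
        w (i + 1) + w l = w 0 + w (l + i + 1) := by
      intro i
      induction i with
      | zero => intro _; exact ⟨rfl, hs⟩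
      | succ i ih =>
        intro hi
        obtain ⟨h1, h2⟩ := ih (by omega)
        refine ⟨h2, ?_⟩
        have a1 := hw i (by omega)
        have a2 := hw (i + 1) (by omega)
        have a3 := hw (l + i) (by omega)
        have a4 := hw (l + i + 1) (by omega)
        have a5 := tw i hi
        rw [show l + (i + 1) + 1 = l + i + 2 by ring]
        rw [show i + 1 + 1 = i + 2 by ring] at *
        rw [show l + i + 1 + 1 = l + i + 2 by ring] at a4
        omega
    have par' : ∀ i < l, w i + w l = w 0 + w (l + i) := by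
      intro i hi
      rcases i with _ | i
      · rfl
      · exact (par i hi).2
    have up : ∀ k x, k < l → w 0 ≤ x → x ≤ w k → ∃ i ≤ k, w i = x := by
      intro k
      induction k with
      | zero => intro x _ h1 h2; exact ⟨0, le_rfl, by omega⟩
      | succ k ik =>
        intro x hk h1 h2
        by_cases e : x ≤ w k
        · obtain ⟨i, hi, e⟩ := ik x (by omega) h1 e
          exact ⟨i, by omega, e⟩
        · have := hw k (by omega)
          exact ⟨k + 1, le_rfl, by omega⟩
    have dn : ∀ k x, k < l → x ≤ w 0 → w k ≤ x → ∃ i ≤ k, w i = x := by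
      intro k
      induction k with
      | zero => intro x _ h1 h2; exact ⟨0, le_rfl, by omega⟩
      | succ k ik =>
        intro x hk h1 h2
        by_cases e : w k ≤ x
        · obtain ⟨i, hi, e⟩ := ik x (by omega) h1 e
          exact ⟨i, by omega, e⟩
        · have := hw k (by omega)
          exact ⟨k + 1, le_rfl, by omega⟩
    rcases lt_trichotomy (w 0) (w l) with k | k | k
    · exfalso
      obtain ⟨i0, hi0, e0⟩ := up (l - 1) (w l - 1) (by omega) (by omega) (by omega)
      refine fs (w l - w 0) (by omega) (w 0) ?_ fun j hj => ?_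
      · have := par' i0 (by omega)
        have := hN (l + i0)
        omega
      · obtain ⟨i, hi, e⟩ := up (l - 1) (w 0 + j) (by omega) (by omega) (by omega)
        have h1 := par' i (by omega)
        have h2 := hc i (by omega)
        rw [e, show w (l + i) = w 0 + j + (w l - w 0) by omega] at h2
        exact h2
    · intro i hi
      have := par' i hi
      omega
    · exfalso
      obtain ⟨i0, hi0, e0⟩ := dn (l - 1) (w l + 1) (by omega) (by omega) (by omega)
      have p0 := par' i0 (by omega)
      refine fs (w 0 - w l) (by omega) (w (l + i0)) ?_ fun j hj => ?_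
      · have := hN 0
        omega
      · obtain ⟨i, hi, e⟩ := dn (l - 1) (w l + 1 + j) (by omega) (by omega) (by omega)
        have h1 := par' i (by omega)
        have h2 := hc i (by omega)
        rw [e, show w (l + i) = w (l + i0) + j by omega] at h2
        rw [← h2]
        congr 1
        omega
  · exfalso
    have par : ∀ i < l, (w 0 < w l → w i + 2 < w (l + i)) ∧ (w l < w 0 → w (l + i) + 2 < w i) := by
      intro i
      induction i with
      | zero =>
        intro hi
        have := ne12 0 hi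
        simp only [add_zero] at this ⊢
        omega
      | succ i ih =>
        intro hi
        have h1 := ih (by omega)
        have h2 := ne12 (i + 1) hi
        have a1 := hw i (by omega)
        have a3 := hw (l + i) (by omega)
        rw [show l + (i + 1) = l + i + 1 by ring] at *
        omega
    have anti : ∀ i, i + 1 < l → w i + w (l + i) = w 0 + w l ∧
        w (i + 1) + w (l + i + 1) = w 0 + w l := by
      intro i
      induction i with
      | zero => intro _; exact ⟨rfl, by simp only [add_zero, zero_add]; omega⟩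
      | succ i ih =>
        intro hi
        obtain ⟨h1, h2⟩ := ih (by omega)
        refine ⟨h2, ?_⟩
        have a1 := hw i (by omega)
        have a2 := hw (i + 1) (by omega)
        have a3 := hw (l + i) (by omega)
        have a4 := hw (l + i + 1) (by omega)
        have a5 := tw i hi
        rw [show l + (i + 1) + 1 = l + i + 2 by ring]
        rw [show i + 1 + 1 = i + 2 by ring] at *
        rw [show l + i + 1 + 1 = l + i + 2 by ring] at a4
        omega
    have b0 := par 0 (by omega)
    have b1 := ne12 1 (by omega)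
    have b2 := par (l - 1) (by omega)
    have b3 := (anti (l - 2) (by omega)).2
    rw [show l - 2 + 1 = l - 1 by omega, show l + (l - 2) + 1 = l + (l - 1) by omega] at b3
    simp only [add_zero] at b0
    omega

lemma upper (n q : ℕ) (f : ℕ → ℕ) (hq : ∀ x, f x < q) (f1 : ∀ n, f n ≠ f (n + 1))
    (f2 : ∀ n, f n ≠ f (n + 2))
    (fs : ∀ p, 1 ≤ p → ∀ i, i + 2 * p ≤ n → ¬ ∀ j < p, f (i + j) = f (i + j + p)) :
    IsWN (SimpleGraph.pathGraph n) 1 q (fun v => {⟨f v, hq v⟩}) := by
  refine ⟨fun v => rfl, fun l w a hl hw ha hc i hi => Fin.ext ?_⟩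
  refine walk_lemma f n f1 f2 fs l (fun i => w i) hl (fun i => (w i).2)
    (fun i hi => SimpleGraph.pathGraph_adj.mp (hw i hi)) (fun i hi => ?_) i hi
  have h1 := Finset.mem_singleton.mp (ha i (by omega))
  have h2 := Finset.mem_singleton.mp (ha (l + i) (by omega))
  rw [hc i hi, h2] at h1
  exact (congrArg Fin.val h1).symm

lemma short {n p q : ℕ} {c : Fin n → Finset (Fin q)} (h : IsWN (SimpleGraph.pathGraph n) p q c)
    (hp : 1 ≤ p) (x y : Fin n) (hxy : x.1 + 1 = y.1 ∨ x.1 + 2 = y.1) : Disjoint (c x) (c y) := by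
  rw [Finset.disjoint_left]
  intro a h1 h2
  rcases hxy with e | e
  · have := h.2 1 (fun i => if i = 0 then x else y) (fun _ => a) le_rfl
      (fun i hi => by
        obtain rfl : i = 0 := by omega
        simp [SimpleGraph.pathGraph_adj, e])
      (fun i _ => by split_ifs <;> assumption) (fun _ _ => rfl) 0 (by omega)
    simp at this
    subst this
    omega
  · let z : Fin n := ⟨x.1 + 1, by omega⟩
    obtain ⟨b, hb⟩ := Finset.card_pos.mp (by rw [h.1 z]; omega)
    have := h.2 2 (fun i => [x, z, y, z].getD i x) (fun i => [a, b, a, b].getD i a) (by omega)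
      (fun i hi => by
        obtain rfl | rfl | rfl : i = 0 ∨ i = 1 ∨ i = 2 := by omega
        all_goals simp [SimpleGraph.pathGraph_adj, z]
        all_goals omega)
      (fun i hi => by
        obtain rfl | rfl | rfl | rfl : i = 0 ∨ i = 1 ∨ i = 2 ∨ i = 3 := by omega
        all_goals simpa)
      (fun i hi => by
        obtain rfl | rfl : i = 0 ∨ i = 1 := by omega
        all_goals simp) 0 (by omega)
    simp at this
    subst this
    omega

lemma low3 {n p q : ℕ} {c : Fin n → Finset (Fin q)} (h : IsWN (SimpleGraph.pathGraph n) p q c)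
    (hp : 1 ≤ p) (hn : 3 ≤ n) : 3 * p ≤ q := by
  let x : Fin n := ⟨0, by omega⟩
  let y : Fin n := ⟨1, by omega⟩
  let z : Fin n := ⟨2, by omega⟩
  have := Finset.card_le_univ (c x ∪ c y ∪ c z)
  rw [Finset.card_union_of_disjoint (Finset.disjoint_union_left.mpr
    ⟨short h hp x z (by simp [x, z]), short h hp y z (by simp [y, z])⟩),
    Finset.card_union_of_disjoint (short h hp x y (by simp [x, y])), h.1, h.1, h.1,
    Fintype.card_fin] at this
  omega

lemma low4 {n p q : ℕ} {c : Fin n → Finset (Fin q)} (h : IsWN (SimpleGraph.pathGraph n) p q c)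
    (hp : 1 ≤ p) (hn : 6 ≤ n) : 4 * p ≤ q := by
  let v : ℕ → Fin n := fun i => ⟨min i 5, by omega⟩
  have hv : ∀ i ≤ 5, (v i).1 = i := fun i hi => min_eq_left hi
  by_contra hlt
  have key : ∀ i ≤ 2, ∃ a, a ∈ c (v i) ∧ a ∈ c (v (3 + i)) := by
    intro i hi
    by_contra hn
    have hd : Disjoint (c (v i)) (c (v (3 + i))) :=
      Finset.disjoint_left.mpr fun a h1 h2 => hn ⟨a, h1, h2⟩
    have e0 := hv i (by omega)
    have e1 := hv (1 + i) (by omega)
    have e2 := hv (2 + i) (by omega)
    have e3 := hv (3 + i) (by omega)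
    have := Finset.card_le_univ (c (v i) ∪ c (v (1 + i)) ∪ c (v (2 + i)) ∪ c (v (3 + i)))
    rw [Finset.card_union_of_disjoint (Finset.disjoint_union_left.mpr
      ⟨Finset.disjoint_union_left.mpr ⟨hd, short h hp _ _ (by omega)⟩, short h hp _ _ (by omega)⟩),
      Finset.card_union_of_disjoint (Finset.disjoint_union_left.mpr
      ⟨short h hp _ _ (by omega), short h hp _ _ (by omega)⟩),
      Finset.card_union_of_disjoint (short h hp _ _ (by omega)), h.1, h.1, h.1, h.1,
      Fintype.card_fin] at this
    omega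
  obtain ⟨a0, h0, k0⟩ := key 0 (by omega)
  obtain ⟨a1, h1, k1⟩ := key 1 (by omega)
  obtain ⟨a2, h2, k2⟩ := key 2 (by omega)
  have := h.2 3 v (fun i => [a0, a1, a2, a0, a1, a2].getD i a0) (by omega)
    (fun i hi => by
      rw [SimpleGraph.pathGraph_adj, hv i (by omega), hv (i + 1) (by omega)]
      omega)
    (fun i hi => by
      obtain rfl | rfl | rfl | rfl | rfl | rfl : i = 0 ∨ i = 1 ∨ i = 2 ∨ i = 3 ∨ i = 4 ∨ i = 5 := by
        omega
      all_goals simpa)
    (fun i hi => by
      obtain rfl | rfl | rfl : i = 0 ∨ i = 1 ∨ i = 2 := by omega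
      all_goals simp) 0 (by omega)
  have e := congrArg Fin.val this
  rw [hv 0 (by omega), hv (3 + 0) (by omega)] at e
  omega

theorem result : IsLeast (ratios (SimpleGraph.pathGraph 5)) 3 ∧
    ∀ n, 6 ≤ n → IsLeast (ratios (SimpleGraph.pathGraph n)) 4 := by
  refine ⟨⟨⟨1, 3, _, le_rfl, by norm_num, upper 5 3 (fun x => x % 3) (fun x => by omega)
    (fun n => by omega) (fun n => by omega) ?_, by norm_num⟩, ?_⟩,
    fun n hn => ⟨⟨1, 4, _, le_rfl, by norm_num, upper n 4 col col_lt col1 col2
      fun p hp i _ => col_sq p hp i, by norm_num⟩, ?_⟩⟩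
  · intro p hp i hi h
    have := h 0 hp
    omega
  · rintro r ⟨p, q, c, hp, -, h, rfl⟩
    have h1 : (3 * p : ℝ) ≤ q := by exact_mod_cast low3 h hp (by norm_num)
    have h2 : (0 : ℝ) < p := by exact_mod_cast hp
    rwa [le_div_iff₀ h2]
  · rintro r ⟨p, q, c, hp, -, h, rfl⟩
    have h1 : (4 * p : ℝ) ≤ q := by exact_mod_cast low4 h hp hn
    have h2 : (0 : ℝ) < p := by exact_mod_cast hp
    rwa [le_div_iff₀ h2]

end Pool.Agent.Results.MP_c566a2_co.Value
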